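import Pool.Agent.H9.DegSeq.Main

/-!
# A degree sequence that does not follow finitely many linear recurrences
-/

namespace Pool.Agent.Results.MP_3d9fc2_ag.NotFinitelyManyRecurrences

open Pool.Agent.H9.DegSeq

/-- Over `K = 𝔽₂(t)` there is a dominant rational map `f` of `ℙ⁴` of degree three such that the
degree `D n` of the `n`-th iterate is `2n - k` for `2 ^ k < n ≤ 2 ^ (k + 1)`, and there are no
finitely many linear recurrence sequences `L i` and no choice `ι` with `D n = L (ι n) n` for all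
`n ≥ 1`. -/
theorem result : ∃ (f : Tuple (FractionRing (Polynomial (ZMod 2))) 4) (D : ℕ → ℕ),
    IsReduced f 3 ∧ AlgebraicIndependent (FractionRing (Polynomial (ZMod 2))) f ∧
      (∀ n, 1 ≤ n → HasDegree (iter f n) (D n)) ∧
      (∀ k n, 2 ^ k < n → n ≤ 2 ^ (k + 1) → D n + k = 2 * n) ∧
      ¬ ∃ (r : ℕ) (L : Fin r → ℕ → ℂ) (ι : ℕ → Fin r), (∀ i, IsLinRec (L i)) ∧
        ∀ n, 1 ≤ n → (D n : ℂ) = L (ι n) n :=
  main

end Pool.Agent.Results.MP_3d9fc2_ag.NotFinitelyManyRecurrences
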